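import Pool.Agent.Helper622.Sidki.Main

/-!
# The groups Y(m, 2^k) are finite

For all `m` and all `k` the group `Y(m, 2^k)` is finite.

Idea of the proof.  Put `N = 2n`, `n = 2^k`.  The group `Y(3,N)` extended by the symmetric group
`S_3` is a quotient of a group generated by `a`, `x`, `w`, in which one has elements `X(f)`, `Y(f)`
for `f` in `F_2[t]`.  An argument in the manner of Nagao shows that for every exact factorisation
`f v = 1 + t^j` in `F_2[t]` one has `X(f) Y(v) = a^j Y(v) X(f) a^j` (theorem `Data.key`).
For `N` a power of two this gives, with `f`, `v` powers of `1 + t`, that `X(e r)` and `Y(e s)`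
commute (`e = 1 + t^n`), and, with `v` squarefree (then `v` divides `1 + t^j` for some odd `j`), that
certain elements commute with `a`.  These relations of `Y(3,2n)` imply that for every `m` the kernel
of `Y(m,2n) → Y(m,n)` is a finite elementary abelian 2-group (`Ker.lean`).
-/

namespace Pool.Agent.Results.MP_e0c532_al.TwoPowerFinite

theorem result :
    ∀ m k : ℕ,
      Finite (PresentedGroup
        {r : FreeGroup (Fin m) |
          (∃ i : Fin m, r = FreeGroup.of i ^ (2 ^ k)) ∨
          ∃ i j : Fin m, ∃ e : ℕ, i < j ∧ 1 ≤ e ∧ 2 * e ≤ 2 ^ k ∧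
            r = (FreeGroup.of i ^ e * FreeGroup.of j ^ e) ^ 2}) := by
  intro m k
  exact Pool.Agent.Helper622.Sidki.main m k

end Pool.Agent.Results.MP_e0c532_al.TwoPowerFinite
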